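import Pool.Agent.helper61.CSW.W.SpecW

/-! # csw:NR0: no superattracting cycle outside `E`. -/

set_option autoImplicit false

open Complex Metric Set Filter Topology MeasureTheory
open YPPS (fd fdd pre TT CV IsCyc rho Exact)
open MPS (BB)
open Pool.Agent.helper98.ILF (juliaSet fatouSet)

noncomputable section

open CSS (SE SV JJ)

namespace YW

theorem NR0_chain (hIFC : CSS.IFC_stmt) (f : SE) (z : ℂ) : ∀ m : ℕ, mlt f m z = 0 → ∃ j, j < m ∧ fd f (CSS.it f j z) = 0 := by
  obtain ⟨-, h0, -, -, -, -, hder, -, -⟩ := hIFC f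
  intro m
  induction m with
  | zero =>
    intro h
    exfalso
    have h1 : (CSS.it f 0) = fun z : ℂ => z := by
      funext w
      exact h0 w
    have h2 : mlt f 0 z = deriv (CSS.it f 0) z := rfl
    rw [h2, h1] at h
    simp at h
  | succ k ih =>
    intro h
    have h2 : mlt f (k + 1) z = deriv (CSS.it f (k + 1)) z := rfl
    rw [h2, hder k z] at h
    rcases mul_eq_zero.mp h with h3 | h3
    · exact ⟨k, Nat.lt_succ_self k, h3⟩
    · obtain ⟨j, hj, hj'⟩ := ih h3
      exact ⟨j, by omega, hj'⟩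

theorem NR0_pow (hIFC : CSS.IFC_stmt) (f : SE) (p : ℂ) (hp : f.eval p = p) : ∀ m : ℕ, CSS.it f m p = p ∧ mlt f m p = fd f p ^ m := by
  obtain ⟨-, h0, -, hs, -, -, hder, -, -⟩ := hIFC f
  intro m
  induction m with
  | zero =>
    have h1 : (CSS.it f 0) = fun z : ℂ => z := by
      funext w
      exact h0 w
    refine ⟨h0 p, ?_⟩
    have h2 : mlt f 0 p = deriv (CSS.it f 0) p := rfl
    rw [h2, h1]
    simp
  | succ k ih =>
    refine ⟨by rw [hs k p, ih.1, hp], ?_⟩
    have h2 : mlt f (k + 1) p = deriv (CSS.it f (k + 1)) p := rfl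
    have h3 : mlt f k p = deriv (CSS.it f k) p := rfl
    have h4 : deriv (fun w => f.eval w) p = fd f p := rfl
    rw [h2, hder k p, ih.1, h4, ← h3, ih.2, pow_succ]
    ring

theorem NR0 (hNRQ : NRQ_stmt) (hTRE : CSS.TRE_stmt) (hTRC : CSS.TRC_stmt) (hIFC : CSS.IFC_stmt) : NR0_stmt := by
  classical
  intro f X E n μ w hS hA z m hm hz hzE h0
  obtain ⟨-, hi0, hi1, his, his', hadd, hder, hsing, hSV⟩ := hIFC f
  have hz' : CSS.it f m z = z := hz
  obtain ⟨j, hj, hjc⟩ := NR0_chain hIFC f z m h0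
  -- the critical point and its image
  set x₀ : ℂ := CSS.it f (j + 1) z with hx₀
  set x : ℕ → ℂ := fun i => CSS.it f i x₀ with hx
  have hxs : ∀ i, f.eval (x i) = x (i + 1) := fun i => (his i x₀).symm
  have hx0 : x 0 = x₀ := hi0 x₀
  have hx0SV : x₀ ∈ SV f := by
    rw [hSV]
    have := hsing (CSS.it f j z) hjc
    rwa [← his j z] at this
  have hxit : ∀ i, x i = CSS.it f (i + (j + 1)) z := fun i => (hadd i (j + 1) z).symm
  have hper : ∀ i, CSS.it f (i + m) z = CSS.it f i z := by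
    intro i
    rw [hadd i m z, hz']
  -- existence of a critical point on the orbit of x₀
  have hex : ∃ t, fd f (x t) = 0 := by
    refine ⟨m - 1, ?_⟩
    rw [hxit, show m - 1 + (j + 1) = j + m by omega, hper]
    exact hjc
  set t := Nat.find hex with ht
  have ht0 : fd f (x t) = 0 := Nat.find_spec hex
  have htm : ∀ i, i < t → fd f (x i) ≠ 0 := fun i hi => Nat.find_min hex hi
  have hxne : ∀ i, 1 ≤ i → i ≤ t → x i ≠ x₀ := by
    intro i hi hit h
    have h1 : x t = x (t - i) := by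
      have h2 : x t = CSS.it f (t - i) (CSS.it f i x₀) := by
        rw [← hadd (t - i) i x₀, Nat.sub_add_cancel hit]
      rw [h2]
      show CSS.it f (t - i) (x i) = CSS.it f (t - i) x₀
      rw [h]
    exact htm (t - i) (by omega) (by rw [← h1]; exact ht0)
  -- periodicity of the orbit, E
  have hmul : ∀ l : ℕ, CSS.it f (m * l) z = z := by
    intro l
    induction l with
    | zero => simpa using hi0 z
    | succ l ih => rw [Nat.mul_succ, hper, ih]
  have hxper : ∀ i, CSS.it f m (x i) = x i := by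
    intro i
    rw [hxit, ← hadd m (i + (j + 1)) z, Nat.add_comm, hper]
  have hEinv : ∀ (i : ℕ) (u : ℂ), u ∈ E → CSS.it f i u ∈ E := by
    intro i u hu
    induction i with
    | zero => rw [hi0]; exact hu
    | succ i ih => rw [his]; exact hA.inv _ ih
  have hxE : ∀ i, x i ∉ E := by
    intro i h
    apply hzE
    -- a multiple of m beyond i + j + 1
    have h1 := hEinv (m * (i + (j + 1)) - (i + (j + 1))) (x i) h
    rw [hxit, ← hadd] at h1
    have h2 : i + (j + 1) ≤ m * (i + (j + 1)) := Nat.le_mul_of_pos_left _ (by omega)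
    rw [Nat.sub_add_cancel h2, hmul] at h1
    exact h1
  have hpE : ∀ p : ℂ, f.eval p = p → 1 < ‖fd f p‖ → p ∉ E := by
    intro p hp hr h
    obtain ⟨m', hm', h1, h2⟩ := hA.att p h
    rw [(NR0_pow hIFC f p hp m').2, norm_pow] at h2
    exact absurd h2 (not_lt.mpr (one_le_pow₀ hr.le))
  have hxp : ∀ p : ℂ, f.eval p = p → 1 < ‖fd f p‖ → x₀ ≠ p := by
    intro p hp hr h
    have h1 : x t = p := by
      show CSS.it f t x₀ = p
      rw [h]
      exact (NR0_pow hIFC f p hp t).1
    rw [h1] at ht0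
    rw [ht0, norm_zero] at hr
    linarith
  -- the residues
  set r : ℕ → ℂ := fun i => ∏ l ∈ Finset.range i, (fd f (x l))⁻¹ with hr
  have hr0 : r 0 = 1 := by simp [hr]
  have hrs : ∀ i, r (i + 1) = r i / fd f (x i) := by
    intro i
    simp only [hr, Finset.prod_range_succ, div_eq_mul_inv]
  set A : ℂ := ∑ i ∈ Finset.range (t + 1), r i with hAdef
  set B : ℂ := ∑ i ∈ Finset.range (t + 1), r i * x i with hBdef
  set c₁ : ℂ := (A * X.p₂ - B) / (X.p₁ - X.p₂) with hc₁
  set c₂ : ℂ := -A - c₁ with hc₂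
  have hpne : X.p₁ - X.p₂ ≠ 0 := sub_ne_zero.mpr X.ne
  -- the finite set and the residues on it
  set Q : Finset ℂ := insert X.p₁ (insert X.p₂ ((Finset.range (t + 1)).image x)) with hQ
  set ρ : ℂ → ℂ := fun e => (∑ i ∈ Finset.range (t + 1), if x i = e then r i else 0) + (if X.p₁ = e then c₁ else 0) + (if X.p₂ = e then c₂ else 0) with hρ
  have hsum : ∀ φ : ℂ → ℂ, ∑ e ∈ Q, ρ e * φ e = (∑ i ∈ Finset.range (t + 1), r i * φ (x i)) + c₁ * φ X.p₁ + c₂ * φ X.p₂ := by
    intro φ
    simp only [hρ, add_mul, Finset.sum_add_distrib, Finset.sum_mul, ite_mul, zero_mul]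
    congr 1
    · congr 1
      · rw [Finset.sum_comm]
        apply Finset.sum_congr rfl
        intro i hi
        rw [Finset.sum_ite_eq]
        rw [if_pos]
        simp only [hQ, Finset.mem_insert, Finset.mem_image]
        exact Or.inr (Or.inr ⟨i, hi, rfl⟩)
      · rw [Finset.sum_ite_eq, if_pos]
        simp [hQ]
    · rw [Finset.sum_ite_eq, if_pos]
      simp [hQ]
  have hMZ : MZ Q ρ := by
    constructor
    · have h1 := hsum (fun _ => 1)
      simp only [mul_one] at h1
      rw [h1]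
      simp only [hc₂]
      rw [← hAdef]
      ring
    · have h1 := hsum (fun e => e)
      rw [h1]
      rw [← hBdef]
      have h2 : c₁ * (X.p₁ - X.p₂) = A * X.p₂ - B := by
        rw [hc₁]
        field_simp
      simp only [hc₂]
      linear_combination h2
  have hQper : ∀ e ∈ Q, e ∉ E ∧ ∃ m' : ℕ, 1 ≤ m' ∧ it f m' e = e := by
    intro e he
    simp only [hQ, Finset.mem_insert, Finset.mem_image] at he
    rcases he with rfl | rfl | ⟨i, -, rfl⟩
    · exact ⟨hpE _ X.fix1 X.rep1, 1, le_refl 1, (NR0_pow hIFC f _ X.fix1 1).1⟩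
    · exact ⟨hpE _ X.fix2 X.rep2, 1, le_refl 1, (NR0_pow hIFC f _ X.fix2 1).1⟩
    · exact ⟨hxE i, m, hm, hxper i⟩
  have hint : Integrable (fun u : ℂ => ∑ e ∈ Q, ρ e / (u - e)) := hTRC ℂ Q ρ (fun e => e) hMZ.1 hMZ.2
  obtain ⟨σ, hσ⟩ := hTRE f ℂ Q ρ (fun e => e) hint
  set c : ℂ → ℂ := fun e => (if x₀ = e then (-1 : ℂ) else 0) + (if X.p₁ = e then c₁ / fd f X.p₁ - c₁ else 0) + (if X.p₂ = e then c₂ / fd f X.p₂ - c₂ else 0) + (if e ∈ SV f then σ e else 0) with hc
  have hRS : ∀ u : ℂ, RS (ES f X) c u = -1 / (u - x₀) + (c₁ / fd f X.p₁ - c₁) / (u - X.p₁) + (c₂ / fd f X.p₂ - c₂) / (u - X.p₂) + ∑ v ∈ SV f, σ v / (u - v) := by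
    intro u
    have hmem1 : X.p₁ ∈ ES f X := by simp [ES]
    have hmem2 : X.p₂ ∈ ES f X := by simp [ES]
    have hmem0 : x₀ ∈ ES f X := by simp [ES, hx0SV]
    have hsub : SV f ⊆ ES f X := by
      intro v hv
      simp [ES, hv]
    simp only [RS, hc, add_div, ite_div, zero_div, Finset.sum_add_distrib]
    rw [Finset.sum_ite_eq, Finset.sum_ite_eq, Finset.sum_ite_eq, if_pos hmem0, if_pos hmem1, if_pos hmem2]
    congr 1
    rw [← Finset.sum_subset hsub]
    · apply Finset.sum_congr rfl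
      intro v hv
      rw [if_pos hv]
    · intro v _ hv
      rw [if_neg hv]
  have hae : ∀ᵐ u : ℂ, TT f (RS Q ρ) u - RS Q ρ u = RS (ES f X) c u := by
    have hfin : ((CV f : Set ℂ) ∪ ((Q.image (fun e => f.eval e) : Finset ℂ) : Set ℂ)).Finite := by
      apply Set.Finite.union
      · exact f.fin
      · exact Finset.finite_toSet _
    have hnull : ∀ᵐ u : ℂ, u ∉ ((CV f : Set ℂ) ∪ ((Q.image (fun e => f.eval e) : Finset ℂ) : Set ℂ)) := by
      have := hfin.countable.ae_notMem (volume : Measure ℂ)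
      exact this
    filter_upwards [hnull] with u hu
    have hu1 : u ∉ CV f := fun h => hu (Or.inl h)
    have hu2 : ∀ e ∈ Q, u ≠ f.eval e := by
      intro e he h
      apply hu
      right
      rw [Finset.mem_coe, Finset.mem_image]
      exact ⟨e, he, h.symm⟩
    have h1 := hσ u hu1 hu2
    have h2 : TT f (RS Q ρ) u = TT f (fun y => ∑ e ∈ Q, ρ e / (y - e)) u := rfl
    rw [h2, h1, hRS u]
    have h3 : ∑ e ∈ Q, (ρ e / fd f e) / (u - f.eval e) = (∑ i ∈ Finset.range (t + 1), (r i / fd f (x i)) / (u - f.eval (x i))) + (c₁ / fd f X.p₁) / (u - X.p₁) + (c₂ / fd f X.p₂) / (u - X.p₂) := by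
      have h4 := hsum (fun e => 1 / fd f e / (u - f.eval e))
      have h5 : ∀ a b d : ℂ, a / b / d = a * (1 / b / d) := by
        intro a b d
        rw [div_div, div_div, mul_one_div]
      have h6 : ∑ e ∈ Q, (ρ e / fd f e) / (u - f.eval e) = ∑ e ∈ Q, ρ e * (1 / fd f e / (u - f.eval e)) := Finset.sum_congr rfl (fun e _ => h5 _ _ _)
      rw [h6, h4, X.fix1, X.fix2, ← h5, ← h5]
      congr 2
      exact Finset.sum_congr rfl (fun i _ => (h5 _ _ _).symm)
    have h7 : RS Q ρ u = (∑ i ∈ Finset.range (t + 1), r i / (u - x i)) + c₁ / (u - X.p₁) + c₂ / (u - X.p₂) := by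
      have h4 := hsum (fun e => 1 / (u - e))
      have h5 : ∀ a d : ℂ, a / d = a * (1 / d) := by
        intro a d
        rw [mul_one_div]
      have h6 : RS Q ρ u = ∑ e ∈ Q, ρ e * (1 / (u - e)) := Finset.sum_congr rfl (fun e _ => h5 _ _)
      rw [h6, h4, ← h5, ← h5]
      congr 2
      exact Finset.sum_congr rfl (fun i _ => (h5 _ _).symm)
    have h8 : (∑ i ∈ Finset.range (t + 1), (r i / fd f (x i)) / (u - f.eval (x i))) = (∑ i ∈ Finset.range (t + 1), r i / (u - x i)) - 1 / (u - x₀) := by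
      rw [Finset.sum_range_succ, ht0, div_zero, zero_div, add_zero, Finset.sum_range_succ' (fun i => r i / (u - x i)), hr0, hx0]
      rw [add_sub_cancel_right]
      apply Finset.sum_congr rfl
      intro i _
      rw [hxs i, hrs i]
    rw [h3, h7, h8]
    ring
  have hfin := hNRQ f X E n μ w hS Q ρ c hQper hMZ hae x₀ (by
    simp only [hQ, Finset.mem_insert, Finset.mem_image]
    exact Or.inr (Or.inr ⟨0, Finset.mem_range.mpr (Nat.succ_pos t), hx0⟩))
  have hval : ρ x₀ = 1 := by
    simp only [hρ]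
    rw [if_neg (Ne.symm (hxp _ X.fix1 X.rep1)), if_neg (Ne.symm (hxp _ X.fix2 X.rep2)), add_zero, add_zero, Finset.sum_range_succ' , hx0, if_pos rfl, hr0]
    have : ∑ k ∈ Finset.range t, (if x (k + 1) = x₀ then r (k + 1) else 0) = 0 := by
      apply Finset.sum_eq_zero
      intro i hi
      rw [if_neg]
      exact hxne (i + 1) (by omega) (by have := Finset.mem_range.mp hi; omega)
    rw [this, zero_add]
  rw [hval] at hfin
  exact one_ne_zero hfin

end YW
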